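import Pool.Agent.H654R5.PT.Stm

/-! Task PDS (helper180): the design `dsg` in polynomial time. -/

namespace Pool.Agent.H654R5.PT.PDS

open Pool.Agent.NPC

variable {α β : Type} [TEnc α] [TEnc β]

theorem size_pow_le (m k : ℕ) : (m ^ k).size ≤ k * m.size + 1 := by
  rw [Nat.size_le]
  have h1 : m < 2 ^ m.size := Nat.lt_size_self m
  calc m ^ k ≤ (2 ^ m.size) ^ k := Nat.pow_le_pow_left h1.le k
    _ = 2 ^ (k * m.size) := by rw [← pow_mul, mul_comm]
    _ < 2 ^ (k * m.size + 1) := Nat.pow_lt_pow_right (by norm_num) (by omega)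

theorem size_le_sz' (n : ℕ) : n.size ≤ sz n := by
  have := size_le_sz n
  omega

/-- powers with unary exponent -/
theorem powU : NPC.Poly (fun p : ℕ × List Unit => p.1 ^ p.2.length) := by
  refine (NPC.Poly.iterLen (l := fun p : ℕ × List Unit => p.2) (s := fun _ => (1 : ℕ))
    (F := fun (p : ℕ × List Unit) (s : ℕ) => s * p.1) (NPC.Poly.snd NPC.Poly.id) (NPC.Poly.const 1)
    (NPC.Poly.mul (NPC.Poly.snd NPC.Poly.id) (NPC.Poly.fst (NPC.Poly.fst NPC.Poly.id)))
    (Polynomial.C 4 * (Polynomial.X * Polynomial.X + Polynomial.C 1) + Polynomial.C 1) ?_).congr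
      fun p => ?_
  · intro p k hk
    have key : ∀ k : ℕ, (fun s : ℕ => s * p.1)^[k] 1 = p.1 ^ k := by
      intro k
      induction k with
      | zero => rfl
      | succ k ih => rw [Function.iterate_succ_apply', ih, pow_succ]
    rw [key]
    have h1 := sz_nat_le (p.1 ^ k)
    have h2 := size_pow_le p.1 k
    have h3 := size_le_sz' p.1
    have h4 := length_lt_sz p.2
    have h5 : sz p = sz p.1 + sz p.2 + 1 := sz_pair _ _
    simp only [Polynomial.eval_add, Polynomial.eval_mul, Polynomial.eval_C, Polynomial.eval_X]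
    have h6 : k * p.1.size ≤ sz p * sz p := Nat.mul_le_mul (by omega) (by omega)
    omega
  · have key : ∀ k : ℕ, (fun s : ℕ => s * p.1)^[k] 1 = p.1 ^ k := by
      intro k
      induction k with
      | zero => rfl
      | succ k ih => rw [Function.iterate_succ_apply', ih, pow_succ]
    rw [key]

theorem pow {m e : α → ℕ} (hm : NPC.Poly m) (he : UPoly e) : NPC.Poly (fun a => m a ^ e a) :=
  (powU.comp (NPC.Poly.pair hm he)).congr fun a => by simp

/-- one step of the computation of the largest power of `q` which is at most `m` -/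
def lgStep (q m P : ℕ) : ℕ := if 1 < q ∧ P * q ≤ m then P * q else P

theorem lgStep_iter (q m : ℕ) (hq : 2 ≤ q) (k : ℕ) :
    (lgStep q m)^[k] 1 = q ^ min k (Nat.log q m) := by
  induction k with
  | zero => simp
  | succ k ih =>
    rw [Function.iterate_succ_apply', ih]
    unfold lgStep
    by_cases h : k < Nat.log q m
    · have h1 : min k (Nat.log q m) = k := by omega
      have h2 : min (k + 1) (Nat.log q m) = k + 1 := by omega
      have hm : m ≠ 0 := by
        rintro rfl
        simp at h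
      have h3 : q ^ k * q ≤ m := by
        rw [← pow_succ]
        exact (Nat.pow_le_pow_right (by omega) (by omega)).trans (Nat.pow_log_le_self q hm)
      rw [h1, h2, if_pos ⟨by omega, h3⟩, pow_succ]
    · have h1 : min k (Nat.log q m) = Nat.log q m := by omega
      have h2 : min (k + 1) (Nat.log q m) = Nat.log q m := by omega
      have h3 : m < q ^ Nat.log q m * q := by
        rw [← pow_succ]
        exact Nat.lt_pow_succ_log_self (by omega) m
      rw [h1, h2, if_neg (by omega)]

theorem lgStep_le (q m : ℕ) (k : ℕ) : (lgStep q m)^[k] 1 ≤ m + 1 := by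
  induction k with
  | zero => simp
  | succ k ih =>
    rw [Function.iterate_succ_apply']
    unfold lgStep
    split_ifs with h
    · omega
    · exact ih

theorem lgP_poly : NPC.Poly (fun p : (ℕ × ℕ) × List Unit => (lgStep p.1.1 p.1.2)^[p.2.length] 1) := by
  refine NPC.Poly.iterLen (l := fun p : (ℕ × ℕ) × List Unit => p.2) (s := fun _ => (1 : ℕ))
    (F := fun (p : (ℕ × ℕ) × List Unit) (s : ℕ) => lgStep p.1.1 p.1.2 s) (NPC.Poly.snd NPC.Poly.id) (NPC.Poly.const 1)
    ?_ (Polynomial.C 4 * (Polynomial.X + Polynomial.C 1) + Polynomial.C 1) ?_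
  · unfold lgStep
    have h1 : NPC.Poly (fun p : ((ℕ × ℕ) × List Unit) × ℕ => p.1.1.1) :=
      NPC.Poly.fst (NPC.Poly.fst (NPC.Poly.fst NPC.Poly.id))
    have h2 : NPC.Poly (fun p : ((ℕ × ℕ) × List Unit) × ℕ => p.1.1.2) :=
      NPC.Poly.snd (NPC.Poly.fst (NPC.Poly.fst NPC.Poly.id))
    have h3 : NPC.Poly (fun p : ((ℕ × ℕ) × List Unit) × ℕ => p.2) := NPC.Poly.snd NPC.Poly.id
    exact NPC.Poly.ite (NPC.Poly.decide_and (NPC.Poly.decide_lt (NPC.Poly.const 1) h1)
      (NPC.Poly.decide_le (NPC.Poly.mul h3 h1) h2)) (NPC.Poly.mul h3 h1) h3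
  · intro p k hk
    have h1 : (fun s : ℕ => lgStep p.1.1 p.1.2 s)^[k] 1 ≤ p.1.2 + 1 := lgStep_le _ _ k
    have h2 := sz_nat_le ((fun s : ℕ => lgStep p.1.1 p.1.2 s)^[k] 1)
    have h3 := Nat.size_le_size h1
    have h4 : (p.1.2 + 1).size ≤ p.1.2.size + 1 := by
      rw [Nat.size_le]
      have := Nat.lt_size_self p.1.2
      rw [pow_succ]
      omega
    have h5 := size_le_sz' p.1.2
    have h6 : sz p = sz p.1 + sz p.2 + 1 := sz_pair _ _
    have h7 : sz p.1 = sz p.1.1 + sz p.1.2 + 1 := sz_pair _ _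
    simp only [Polynomial.eval_add, Polynomial.eval_mul, Polynomial.eval_C, Polynomial.eval_X]
    omega

/-- `lf` with fuel -/
def lfF (q m : ℕ) (l : List Unit) : ℕ := m / (lgStep q m)^[l.length] 1 * (lgStep q m)^[l.length] 1

theorem lfF_poly {q m : α → ℕ} {l : α → List Unit} (hq : NPC.Poly q) (hm : NPC.Poly m) (hl : NPC.Poly l) :
    NPC.Poly (fun a => lfF (q a) (m a) (l a)) := by
  have h1 : NPC.Poly (fun a => (lgStep (q a) (m a))^[(l a).length] 1) :=
    lgP_poly.comp (NPC.Poly.pair (NPC.Poly.pair hq hm) hl)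
  exact NPC.Poly.mul (NPC.Poly.div hm h1) h1

theorem lfF_eq (q m : ℕ) (hq : 2 ≤ q) (l : List Unit) (hl : m ≤ l.length) : lfF q m l = lf q m := by
  unfold lfF lf
  have h1 : Nat.log q m ≤ m := Nat.log_le_self q m
  rw [lgStep_iter q m hq, min_eq_right (by omega)]

theorem lfF_le (q m : ℕ) (l : List Unit) : lfF q m l ≤ m := Nat.div_mul_le_self _ _

/-- step of the computation of the sizes of the groups -/
def gStep (q : ℕ) (l : List Unit) (s : ℕ × List ℕ) : ℕ × List ℕ :=
  if s.1 < 3 then s else (s.1 - lfF q (s.1 / 3) l, s.2 ++ [lfF q (s.1 / 3) l])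

theorem gStep_iter (q : ℕ) (hq : 2 ≤ q) (l : List Unit) (f : ℕ) : ∀ (B : ℕ) (acc : List ℕ),
    B ≤ l.length → ((gStep q l)^[f] (B, acc)).2 = acc ++ gsz q f B := by
  induction f with
  | zero => intro B acc _; simp [gsz]
  | succ f ih =>
    intro B acc hB
    rw [Function.iterate_succ_apply]
    by_cases h : B < 3
    · have h1 : gStep q l (B, acc) = (B, acc) := by
        unfold gStep
        rw [if_pos h]
      rw [h1, ih B acc hB]
      have h2 : ∀ f, gsz q f B = [] := by
        intro f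
        cases f with
        | zero => rfl
        | succ f => simp [gsz, h]
      rw [h2, h2]
    · have h1 : gStep q l (B, acc) = (B - lf q (B / 3), acc ++ [lf q (B / 3)]) := by
        unfold gStep
        rw [if_neg h]
        simp only
        rw [lfF_eq q (B / 3) hq l (by omega)]
      rw [h1, ih _ _ (by omega)]
      simp [gsz, h]

theorem gStep_bound (q : ℕ) (l : List Unit) (B : ℕ) (f : ℕ) :
    ((gStep q l)^[f] (B, [])).1 ≤ B ∧ ((gStep q l)^[f] (B, [])).2.length ≤ f ∧
      ∀ x ∈ ((gStep q l)^[f] (B, [])).2, x ≤ B := by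
  induction f with
  | zero => simp
  | succ f ih =>
    rw [Function.iterate_succ_apply']
    set s := (gStep q l)^[f] (B, []) with hs
    unfold gStep
    obtain ⟨h1, h2, h3⟩ := ih
    split_ifs with h
    · exact ⟨h1, by omega, h3⟩
    · refine ⟨by simp only; omega, by simp only [List.length_append, List.length_singleton]; omega, ?_⟩
      intro x hx
      rw [List.mem_append, List.mem_singleton] at hx
      rcases hx with hx | hx
      · exact h3 x hx
      · rw [hx]
        have := lfF_le q (s.1 / 3) l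
        omega

theorem gsz_poly {q f B : α → ℕ} (hq : NPC.Poly q) (hf : UPoly f) (hB : UPoly B) (hq2 : ∀ a, 2 ≤ q a) :
    NPC.Poly (fun a => gsz (q a) (f a) (B a)) := by
  obtain ⟨r, hr⟩ := hB.toPoly.sz_le
  obtain ⟨r2, hr2⟩ := NPC.Poly.sz_le hf
  have hstep : NPC.Poly (fun p : α × ℕ × List ℕ => gStep (q p.1) (List.replicate (B p.1) ()) p.2) := by
    unfold gStep
    have h1 : NPC.Poly (fun p : α × ℕ × List ℕ => p.2.1) := NPC.Poly.fst (NPC.Poly.snd NPC.Poly.id)
    have h2 : NPC.Poly (fun p : α × ℕ × List ℕ => p.2.2) := NPC.Poly.snd (NPC.Poly.snd NPC.Poly.id)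
    have h3 : NPC.Poly (fun p : α × ℕ × List ℕ => lfF (q p.1) (p.2.1 / 3) (List.replicate (B p.1) ())) :=
      lfF_poly (hq.comp (NPC.Poly.fst NPC.Poly.id)) (NPC.Poly.div h1 (NPC.Poly.const 3))
        (NPC.Poly.comp hB (NPC.Poly.fst NPC.Poly.id))
    exact NPC.Poly.ite (NPC.Poly.decide_lt h1 (NPC.Poly.const 3)) (NPC.Poly.snd NPC.Poly.id)
      (NPC.Poly.pair (NPC.Poly.sub h1 h3) (NPC.Poly.append h2 (NPC.Poly.cons h3 (NPC.Poly.const []))))
  have h1 := NPC.Poly.iterLen (l := fun a => List.replicate (f a) ()) (s := fun a => (B a, ([] : List ℕ)))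
    (F := fun a s => gStep (q a) (List.replicate (B a) ()) s) hf
    (NPC.Poly.pair hB.toPoly (NPC.Poly.const [])) hstep
    (Polynomial.C 2 * r + (r2 * (Polynomial.C 2 * r + Polynomial.C 1) + Polynomial.C 1) + Polynomial.C 1) ?_
  · refine (NPC.Poly.snd h1).congr fun a => ?_
    rw [List.length_replicate]
    have h2 := gStep_iter (q a) (hq2 a) (List.replicate (B a) ()) (f a) (B a) [] (by simp)
    rw [List.nil_append] at h2
    exact h2
  · intro a k hk
    have h2 := gStep_bound (q a) (List.replicate (B a) ()) (B a) k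
    set s := (fun s => gStep (q a) (List.replicate (B a) ()) s)^[k] (B a, []) with hs
    have h3 : sz s = sz s.1 + sz s.2 + 1 := sz_pair _ _
    obtain ⟨h4, h5, h6⟩ := h2
    have h7 : sz s.1 ≤ 2 * r.eval (sz a) := by
      have := sz_nat_mono_le h4
      have := hr a
      omega
    have h8 : sz s.2 ≤ s.2.length * (2 * r.eval (sz a) + 1) + 1 := by
      apply sz_le_length_mul
      intro x hx
      have := sz_nat_mono_le (h6 x hx)
      have := hr a
      omega
    have h9 : s.2.length ≤ r2.eval (sz a) := by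
      have h10 := length_lt_sz (List.replicate (f a) ())
      have h11 := hr2 a
      rw [List.length_replicate] at h10 hk
      omega
    have h12 : s.2.length * (2 * r.eval (sz a) + 1) ≤ r2.eval (sz a) * (2 * r.eval (sz a) + 1) :=
      Nat.mul_le_mul_right _ h9
    simp only [Polynomial.eval_add, Polynomial.eval_mul, Polynomial.eval_C]
    omega

theorem peval_poly {q f j l : α → ℕ} (hq : NPC.Poly q) (hf : UPoly f) (hj : NPC.Poly j) (hl : NPC.Poly l)
    (hq2 : ∀ a, 2 ≤ q a) : NPC.Poly (fun a => peval (q a) (f a) (j a) (l a)) := by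
  obtain ⟨r, hr⟩ := hq.sz_le
  have hstep : NPC.Poly (fun p : α × ℕ × ℕ =>
      (j p.1 / q p.1 ^ (min p.2.1 (f p.1)) % q p.1 + l p.1 * p.2.2) % q p.1) := by
    have h0 : NPC.Poly (fun p : α × ℕ × ℕ => p.1) := NPC.Poly.fst NPC.Poly.id
    have h1 : NPC.Poly (fun p : α × ℕ × ℕ => p.2.1) := NPC.Poly.fst (NPC.Poly.snd NPC.Poly.id)
    have h2 : NPC.Poly (fun p : α × ℕ × ℕ => p.2.2) := NPC.Poly.snd (NPC.Poly.snd NPC.Poly.id)
    have hq' : NPC.Poly (fun p : α × ℕ × ℕ => q p.1) := hq.comp h0
    have hf' : UPoly (fun p : α × ℕ × ℕ => f p.1) := hf.comp h0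
    have hmin : UPoly (fun p : α × ℕ × ℕ => min p.2.1 (f p.1)) :=
      UPoly.of_le (NPC.Poly.min h1 hf'.toPoly) hf' (fun p => min_le_right _ _)
    exact NPC.Poly.mod (NPC.Poly.add (NPC.Poly.mod (NPC.Poly.div (hj.comp h0) (pow hq' hmin)) hq')
      (NPC.Poly.mul (hl.comp h0) h2)) hq'
  have h1 := NPC.Poly.foldr (l := fun a => List.range (f a)) (s := fun _ => (0 : ℕ))
    (F := fun a r acc => (j a / q a ^ (min r (f a)) % q a + l a * acc) % q a) hf.range (NPC.Poly.const 0)
    hstep (Polynomial.C 2 * r + Polynomial.C 1) ?_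
  · refine h1.congr fun a => ?_
    unfold peval
    apply List.foldr_ext
    intro r hr acc
    rw [List.mem_range] at hr
    rw [min_eq_left hr.le]
  · intro a k hk
    have key : ∀ L : List ℕ,
        L.foldr (fun r acc => (j a / q a ^ (min r (f a)) % q a + l a * acc) % q a) 0 ≤ q a := by
      intro L
      cases L with
      | nil => simp
      | cons x L =>
        rw [List.foldr_cons]
        exact (Nat.mod_lt _ (by have := hq2 a; omega)).le
    have h2 := sz_nat_mono_le (key ((List.range (f a)).drop k))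
    have h3 := hr a
    simp only [Polynomial.eval_add, Polynomial.eval_mul, Polynomial.eval_C]
    omega

theorem dset_poly {q m f γ j : α → ℕ} (hq : NPC.Poly q) (hm : UPoly m) (hf : UPoly f) (hγ : NPC.Poly γ)
    (hj : NPC.Poly j) (hq2 : ∀ a, 2 ≤ q a) : NPC.Poly (fun a => dset (q a) (m a) (f a) (γ a) (j a)) := by
  unfold dset
  refine NPC.Poly.map hm.range ?_
  have h0 : NPC.Poly (fun p : α × ℕ => p.1) := NPC.Poly.fst NPC.Poly.id
  have h1 : NPC.Poly (fun p : α × ℕ => p.2) := NPC.Poly.snd NPC.Poly.id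
  have hq' : NPC.Poly (fun p : α × ℕ => q p.1) := hq.comp h0
  exact NPC.Poly.add (NPC.Poly.mul (hγ.comp h0) (NPC.Poly.mul (hm.toPoly.comp h0) hq'))
    (NPC.Poly.add (NPC.Poly.mul h1 hq') (peval_poly hq' (hf.comp h0) (hj.comp h0) h1 (fun p => hq2 p.1)))

theorem filter_range (m n : ℕ) (h : m ≤ n) :
    (List.range n).filter (fun k => decide (k < m)) = List.range m := by
  obtain ⟨d, rfl⟩ := Nat.exists_eq_add_of_le h
  rw [List.range_add, List.filter_append]
  have h1 : (List.range m).filter (fun k => decide (k < m)) = List.range m := by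
    rw [List.filter_eq_self]
    intro k hk
    simpa using hk
  have h2 : ((List.range d).map (fun x => m + x)).filter (fun k => decide (k < m)) = [] := by
    rw [List.filter_eq_nil_iff]
    intro k hk
    simp at hk ⊢
    omega
  rw [h1, h2, List.append_nil]

theorem gsz_le (q f : ℕ) : ∀ B : ℕ, ∀ x ∈ gsz q f B, x ≤ B := by
  induction f with
  | zero => intro B x hx; simp [gsz] at hx
  | succ f ih =>
    intro B x hx
    unfold gsz at hx
    split_ifs at hx with h
    · simp at hx
    · rw [List.mem_cons] at hx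
      rcases hx with hx | hx
      · rw [hx]
        have : lf q (B / 3) ≤ B / 3 := Nat.div_mul_le_self _ _
        omega
      · exact (ih _ x hx).trans (Nat.sub_le _ _)

theorem zipIdx_mem_fst (l : List ℕ) (n : ℕ) (p : ℕ × ℕ) (hp : p ∈ l.zipIdx n) : p.1 ∈ l := by
  have := List.mem_map_of_mem (f := Prod.fst) hp
  rwa [List.zipIdx_map_fst] at this

/-- the main part with arbitrary parameters -/
theorem main_poly {q m f s B : α → ℕ} (hq : NPC.Poly q) (hm : UPoly m) (hf : UPoly f) (hs : UPoly s)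
    (hB : UPoly B) (hq2 : ∀ a, 2 ≤ q a) :
    NPC.Poly (fun a => (gsz (q a) (s a) (B a)).zipIdx.flatMap (fun p =>
      (List.range p.1).map (fun j => dset (q a) (m a) (f a) p.2 j))) := by
  have hG : NPC.Poly (fun a => gsz (q a) (s a) (B a)) := gsz_poly hq hs hB hq2
  have h4 : NPC.Poly (fun a => (gsz (q a) (s a) (B a)).zipIdx.flatMap (fun p =>
      ((List.range (B a)).filter (fun j => decide (j < p.1))).map
        (fun j => dset (q a) (m a) (f a) p.2 j))) := by
    refine NPC.Poly.flatMap (F := fun a p => ((List.range (B a)).filter (fun j => decide (j < p.1))).map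
        (fun j => dset (q a) (m a) (f a) p.2 j)) (NPC.Poly.zipIdx hG) ?_
    refine NPC.Poly.map (l := fun x : α × ℕ × ℕ => (List.range (B x.1)).filter (fun j => decide (j < x.2.1)))
      (F := fun x j => dset (q x.1) (m x.1) (f x.1) x.2.2 j) ?_ ?_
    · refine NPC.Poly.filter (l := fun x : α × ℕ × ℕ => List.range (B x.1))
        (p := fun (x : α × ℕ × ℕ) j => decide (j < x.2.1))
        (UPoly.range (hB.comp (NPC.Poly.fst NPC.Poly.id))) ?_
      exact NPC.Poly.decide_lt (NPC.Poly.snd NPC.Poly.id)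
        (NPC.Poly.fst (NPC.Poly.snd (NPC.Poly.fst NPC.Poly.id)))
    · have h0 : NPC.Poly (fun x : (α × ℕ × ℕ) × ℕ => x.1.1) := NPC.Poly.fst (NPC.Poly.fst NPC.Poly.id)
      exact dset_poly (hq.comp h0) (hm.comp h0) (hf.comp h0)
        (NPC.Poly.snd (NPC.Poly.snd (NPC.Poly.fst NPC.Poly.id))) (NPC.Poly.snd NPC.Poly.id)
        (fun x => hq2 x.1.1)
  refine h4.congr fun a => ?_
  apply List.flatMap_congr
  intro p hp
  rw [filter_range _ _ (gsz_le _ _ _ _ (zipIdx_mem_fst _ _ p hp))]

theorem PDS_proof (h1 : S_PRM) (h2 : S_PPA) : S_PDS := by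
  intro α _ g B hg hB
  obtain ⟨_, haa, _, hqp, hgg, _⟩ := h2 g hg
  have hq2 : ∀ a, 2 ≤ qp (g a) := by
    intro a
    have h3 : 2 ≤ aa (g a) := by unfold aa; omega
    exact h3.trans (h1 (aa (g a)) h3).2.1
  exact main_poly (q := fun a => qp (g a)) (m := fun a => aa (g a)) (f := fun a => g a + 2)
    (s := fun a => gg (g a)) hqp.toPoly haa.1 (hg.1.add (UPoly.const 2)) hgg hB hq2

end Pool.Agent.H654R5.PT.PDS
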